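import Pool.Agent.Helper50.HL.Charts
import Pool.Agent.Helper2.MK.Data

/-! # Escape sequences of incomplete compact affine manifolds -/

set_option autoImplicit false

open Set Filter Topology

namespace Pool.Agent.Helper53.SOLV

open Pool.Agent.Helper2.MK Pool.Agent.Helper50.HL

section charts

variable {V Y : Type*} [NormedAddCommGroup V] [NormedSpace ℝ V] [TopologicalSpace Y] {dev : Y → V}

omit [NormedSpace ℝ V] in
theorem firstCountable (hdev : IsLocalHomeomorph dev) : FirstCountableTopology Y := by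
  constructor
  intro y
  obtain ⟨e, hy, he⟩ := hdev y
  have h1 := e.map_nhds_eq hy
  have h2 : 𝓝 y = map e.symm (𝓝 (e y)) := by
    have h3 := e.symm.map_nhds_eq (e.map_source hy)
    rw [e.left_inv hy] at h3
    exact h3.symm
  rw [h2]
  infer_instance

/-- If the star domain of `y` is not everything there is a first point `q` on some ray which is
missed. -/
theorem exists_boundary [T2Space Y] (hdev : IsLocalHomeomorph dev) {y : Y}
    (h : dom dev y ≠ univ) : ∃ q : V, q ∉ dom dev y ∧
      ∀ t : ℝ, 0 ≤ t → t < 1 → AffineMap.lineMap (dev y) q t ∈ dom dev y := by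
  obtain ⟨x, hx⟩ := (ne_univ_iff_exists_notMem _).1 h
  set S : Set ℝ := {t | 0 ≤ t ∧ AffineMap.lineMap (dev y) x t ∉ dom dev y} with hS
  have hcont : Continuous fun t : ℝ => AffineMap.lineMap (dev y) x t :=
    AffineMap.lineMap_continuous
  have hSc : IsClosed S := by
    refine isClosed_Ici.inter ?_
    exact ((isOpen_dom y).preimage hcont).isClosed_compl
  have hSn : S.Nonempty := ⟨1, zero_le_one, by rwa [AffineMap.lineMap_apply_one]⟩
  have hSb : BddBelow S := ⟨0, fun t ht => ht.1⟩
  have hmem := hSc.csInf_mem hSn hSb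
  set T := sInf S with hT
  have hT0 : 0 < T := by
    rcases hmem.1.lt_or_eq with h1 | h1
    · exact h1
    · exfalso
      apply hmem.2
      rw [← h1, AffineMap.lineMap_apply_zero]
      exact mem_dom_self hdev y
  refine ⟨AffineMap.lineMap (dev y) x T, hmem.2, fun t ht ht1 => ?_⟩
  have h2 : AffineMap.lineMap (dev y) (AffineMap.lineMap (dev y) x T) t =
      AffineMap.lineMap (dev y) x (t * T) := by
    simp only [AffineMap.lineMap_apply, vsub_eq_sub, vadd_eq_add, add_sub_cancel_right, smul_smul]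
  rw [h2]
  by_contra h3
  have h4 := csInf_le hSb (show t * T ∈ S from ⟨mul_nonneg ht hT0.le, h3⟩)
  have h5 : t * T < T := by nlinarith
  linarith

/-- Points of the ray approaching the missed point leave every compact set: the section does not
accumulate. -/
theorem no_limit [T2Space Y] (hdev : IsLocalHomeomorph dev) {y : Y} {q : V}
    (hq : q ∉ dom dev y) {t : ℕ → ℝ} (ht : ∀ k, 0 ≤ t k) (ht1 : ∀ k, t k < 1)
    (htt : Tendsto t atTop (𝓝 1))
    (hdom : ∀ s : ℝ, 0 ≤ s → s < 1 → AffineMap.lineMap (dev y) q s ∈ dom dev y) {w : Y}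
    (hw : Tendsto (fun k => sec dev y (AffineMap.lineMap (dev y) q (t k))) atTop (𝓝 w)) :
    False := by
  have h1 : Tendsto (fun k => dev (sec dev y (AffineMap.lineMap (dev y) q (t k)))) atTop
      (𝓝 (dev w)) := (hdev.continuous.tendsto w).comp hw
  have h2 : Tendsto (fun k => AffineMap.lineMap (dev y) q (t k)) atTop (𝓝 q) := by
    have h3 : Tendsto (fun s : ℝ => AffineMap.lineMap (dev y) q s) (𝓝 1)
        (𝓝 (AffineMap.lineMap (dev y) q (1 : ℝ))) := AffineMap.lineMap_continuous.tendsto _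
    rw [AffineMap.lineMap_apply_one] at h3
    exact h3.comp htt
  have h3 : (fun k => dev (sec dev y (AffineMap.lineMap (dev y) q (t k)))) =
      fun k => AffineMap.lineMap (dev y) q (t k) := by
    funext k
    exact dev_sec hdev (hdom _ (ht k) (ht1 k))
  rw [h3] at h1
  have hwq : dev w = q := tendsto_nhds_unique h1 h2
  obtain ⟨ε, hε, s, hs, hsy, -⟩ := exists_ball_sec hdev w
  have hself := Metric.mem_ball_self (x := dev w) hε
  have hch := chart_convex hdev Metric.isOpen_ball (convex_ball _ _) hself hs hsy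
  have h4 := near_convex hdev Metric.isOpen_ball (convex_ball _ _) hself hch.1
  have h5 : ∀ᶠ k in atTop, AffineMap.lineMap (dev y) q (t k) ∈ Metric.ball (dev w) ε :=
    h1.eventually_mem (Metric.isOpen_ball.mem_nhds hself)
  obtain ⟨k, hk4, hk5⟩ := ((hw.eventually h4).and h5).exists
  refine hq (mem_dom_of_ray hdev (hdom _ (ht k) (ht1 k)) ?_ Metric.isOpen_ball (convex_ball _ _)
    hk5 hk4.1 (by rw [← hwq]; exact hself))
  rw [segment_eq_image_lineMap]
  exact ⟨t k, ⟨ht k, (ht1 k).le⟩, rfl⟩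

/-- A sequence with finite fibres has an injective subsequence. -/
theorem exists_injective_subseq {α : Type*} (h : ℕ → α) (hf : ∀ a, {k | h k = a}.Finite) :
    ∃ ψ : ℕ → ℕ, StrictMono ψ ∧ Function.Injective (h ∘ ψ) := by
  have h1 : ∀ m : ℕ, ∃ N : ℕ, ∀ k, N ≤ k → ∀ j ≤ m, h k ≠ h j := by
    intro m
    have hfin : (⋃ j ∈ Finset.range (m + 1), {k | h k = h j}).Finite :=
      (Finset.range (m + 1)).finite_toSet.biUnion fun j _ => hf _
    obtain ⟨N, hN⟩ := hfin.bddAbove
    refine ⟨N + 1, fun k hk j hj he => ?_⟩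
    have := hN (show k ∈ ⋃ j ∈ Finset.range (m + 1), {k | h k = h j} from
      mem_biUnion (x := j) (by simpa using Nat.lt_succ_of_le hj) he)
    omega
  choose N hN using h1
  let ψ : ℕ → ℕ := fun n => Nat.rec 0 (fun _ r => max (r + 1) (N r)) n
  have hs : ∀ n, ψ (n + 1) = max (ψ n + 1) (N (ψ n)) := fun n => rfl
  have hmono : StrictMono ψ := strictMono_nat_of_lt_succ fun n => by
    rw [hs]
    exact lt_of_lt_of_le (Nat.lt_succ_self _) (le_max_left _ _)
  have key : ∀ a b, a < b → h (ψ b) ≠ h (ψ a) := by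
    intro a b hab
    obtain ⟨b, rfl⟩ := Nat.exists_eq_succ_of_ne_zero (by omega : b ≠ 0)
    refine hN (ψ b) _ (by rw [Nat.succ_eq_add_one, hs]; exact le_max_right _ _) _
      (hmono.monotone (Nat.lt_succ_iff.1 hab))
  refine ⟨ψ, hmono, fun a b hab => ?_⟩
  rcases lt_trichotomy a b with h2 | h2 | h2
  · exact absurd hab.symm (key a b h2)
  · exact h2
  · exact absurd hab (key b a h2)

end charts

variable {V G Y : Type*} [NormedAddCommGroup V] [NormedSpace ℝ V] [Group G] [TopologicalSpace Y]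
  [MulAction G Y]

/-- **Escape sequences.** If a compact affine manifold is incomplete there are pairwise distinct
`g k` in the deck group and points `z k → z₀` such that `dev (g k • z k)` converges. -/
theorem exists_escape [T2Space Y] [ConnectedSpace Y] (M : AffineDeveloping V G Y)
    (hinc : ¬ ∃ e : Y ≃ₜ V, ⇑e = M.dev) :
    ∃ (g : ℕ → G) (z : ℕ → Y) (z₀ : Y) (q : V), Function.Injective g ∧
      Tendsto z atTop (𝓝 z₀) ∧ Tendsto (fun k => M.dev (g k • z k)) atTop (𝓝 q) := by
  have hdev := M.dev_local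
  have := firstCountable hdev
  obtain ⟨y₀⟩ : Nonempty Y := inferInstance
  have hdom : dom M.dev y₀ ≠ univ := fun h => hinc (complete_of_dom_univ hdev h)
  obtain ⟨q, hq, hlt⟩ := exists_boundary hdev hdom
  obtain ⟨K, hK, hcov⟩ := M.covering.cocompact
  set t : ℕ → ℝ := fun k => 1 - 1 / ((k : ℝ) + 1) with ht
  have ht0 : ∀ k, 0 ≤ t k := fun k => by
    have : 1 / ((k : ℝ) + 1) ≤ 1 := by
      rw [div_le_one (by positivity)]
      have : (0 : ℝ) ≤ k := Nat.cast_nonneg k
      linarith
    rw [ht]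
    linarith
  have ht1 : ∀ k, t k < 1 := fun k => by
    have : 0 < 1 / ((k : ℝ) + 1) := by positivity
    rw [ht]
    linarith
  have htt : Tendsto t atTop (𝓝 1) := by
    have := tendsto_one_div_add_atTop_nhds_zero_nat (𝕜 := ℝ)
    have h1 := (tendsto_const_nhds (x := (1 : ℝ))).sub this
    rwa [sub_zero] at h1
  set w : ℕ → Y := fun k => sec M.dev y₀ (AffineMap.lineMap (M.dev y₀) q (t k)) with hw
  have hdw : ∀ k, M.dev (w k) = AffineMap.lineMap (M.dev y₀) q (t k) := fun k =>
    dev_sec hdev (hlt _ (ht0 k) (ht1 k))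
  have hwq : Tendsto (fun k => M.dev (w k)) atTop (𝓝 q) := by
    have h3 : Tendsto (fun s : ℝ => AffineMap.lineMap (M.dev y₀) q s) (𝓝 1)
        (𝓝 (AffineMap.lineMap (M.dev y₀) q (1 : ℝ))) := AffineMap.lineMap_continuous.tendsto _
    rw [AffineMap.lineMap_apply_one] at h3
    rw [show (fun k => M.dev (w k)) = fun k => AffineMap.lineMap (M.dev y₀) q (t k) from
      funext hdw]
    exact h3.comp htt
  choose γ hγ using fun k => hcov (w k)
  obtain ⟨z₀, -, φ, hφ, hz⟩ := hK.isSeqCompact hγ
  have hfin : ∀ a : G, {k | (γ (φ k))⁻¹ = a}.Finite := by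
    intro a
    by_contra hinf
    obtain ⟨ψ, hψ, hψa⟩ := Nat.exists_strictMono_subsequence
      (P := fun k => (γ (φ k))⁻¹ = a) (fun n => by
        obtain ⟨m, hm, hmn⟩ := (Set.not_finite.1 hinf).exists_gt n
        exact ⟨m, hmn, hm⟩)
    have h1 : Tendsto (fun k => a • (γ (φ (ψ k)) • w (φ (ψ k)))) atTop (𝓝 (a • z₀)) :=
      ((M.covering.continuous_smul a).tendsto z₀).comp (hz.comp hψ.tendsto_atTop)
    have h2 : (fun k => a • (γ (φ (ψ k)) • w (φ (ψ k)))) = fun k => w (φ (ψ k)) := by
      funext k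
      rw [← hψa k, inv_smul_smul]
    rw [h2] at h1
    exact no_limit hdev hq (t := fun k => t (φ (ψ k))) (fun k => ht0 _) (fun k => ht1 _)
      (htt.comp (hφ.tendsto_atTop.comp hψ.tendsto_atTop)) hlt h1
  obtain ⟨ψ, hψ, hinj⟩ := exists_injective_subseq (fun k => (γ (φ k))⁻¹) hfin
  refine ⟨fun k => (γ (φ (ψ k)))⁻¹, fun k => γ (φ (ψ k)) • w (φ (ψ k)), z₀, q, hinj,
    hz.comp hψ.tendsto_atTop, ?_⟩
  simp only [inv_smul_smul]
  exact hwq.comp (hφ.tendsto_atTop.comp hψ.tendsto_atTop)

end Pool.Agent.Helper53.SOLV
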